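import Pool.Agent.Helper30.KC.GoalsI

/-!
# Project KI (MP_bf413e_co), packet MK: the hub chain
-/

set_option autoImplicit false

namespace Pool.Agent.Helper98.KI

open scoped Classical
open Finset
open Pool.Agent.Helper94.KC
open Pool.Agent.Helper30.KC

variable {V : Type} [Fintype V]

/-- an edge is a pair of adjacent vertices -/
theorem edPair {T : Finset (Finset V)} {e : Finset V} (he : e ∈ ed T) {v : V} (hv : v ∈ e) :
    ∃ u, e = {v, u} ∧ (sk T).Adj v u := by
  unfold ed at he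
  rw [mem_filter] at he
  obtain ⟨-, h2, t, ht, het⟩ := he
  obtain ⟨a, b, hab, rfl⟩ := Finset.card_eq_two.mp h2
  have ha : a ∈ t := het (by simp)
  have hb : b ∈ t := het (by simp)
  rw [mem_insert, mem_singleton] at hv
  rcases hv with rfl | rfl
  · exact ⟨b, rfl, hab, t, ht, ha, hb⟩
  · exact ⟨a, Finset.pair_comm _ _, hab.symm, t, ht, hb, ha⟩

/-- the pair of two adjacent vertices is an edge -/
theorem pairEd {T : Finset (Finset V)} {x u : V} (h : (sk T).Adj x u) :
    ({x, u} : Finset V) ∈ ed T := by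
  obtain ⟨hne, t, ht, hx, hu⟩ := h
  unfold ed
  rw [mem_filter]
  refine ⟨mem_univ _, Finset.card_pair hne, t, ht, ?_⟩
  intro y hy
  rw [mem_insert, mem_singleton] at hy
  rcases hy with rfl | rfl
  · exact hx
  · exact hu

theorem pairSub {t : Finset V} {x u : V} : ({x, u} : Finset V) ⊆ t ↔ x ∈ t ∧ u ∈ t := by
  rw [Finset.insert_subset_iff, Finset.singleton_subset_iff]

/-- the number of vertices in `W` of a triangle at a mixed edge -/
theorem cardMixed {t W : Finset V} (h3 : t.card = 3) {x u : V} (hx : x ∈ t) (hu : u ∈ t)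
    (hxW : x ∈ W) (huW : u ∉ W) : (t ∩ W).card = 1 ∨ (t ∩ W).card = 2 := by
  have h1 : 0 < (t ∩ W).card := Finset.card_pos.mpr ⟨x, mem_inter.mpr ⟨hx, hxW⟩⟩
  have h2 : (t ∩ W).card < t.card := by
    apply Finset.card_lt_card
    refine ⟨inter_subset_left, fun h => huW (mem_inter.mp (h hu)).2⟩
  omega

/-- the claim (A) of the proof -/
theorem mixed {T : Finset (Finset V)} {W : Finset V} {h : V} (hT : Surf T)
    (h4 : ∀ h, ∀ t ∈ T, (t ∩ W).Nonempty → ∀ u ∈ t, ∀ u' ∈ t, u ∉ W → u' ∉ W → u ∈ NK T h →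
      u' ∈ NK T h)
    {x u : V} (hx : x ∈ W) (hu : u ∉ W) (hxu : (sk T).Adj x u) :
    (Odd ((Db T W h).filter (fun t => ({x, u} : Finset V) ⊆ t)).card ↔
      Odd ((Da T W h).filter (fun t => ({x, u} : Finset V) ⊆ t)).card) ∧
    (Odd ((Da T W h).filter (fun t => ({x, u} : Finset V) ⊆ t)).card →
      u ∈ NK T h ∧ ∃ t ∈ T, x ∈ t ∧ u ∈ t ∧ (t ∩ W).card = 1) := by
  have h2 := hT.two x u hxu
  by_cases hN : u ∈ NK T h
  · have hb : (Db T W h).filter (fun t => ({x, u} : Finset V) ⊆ t) =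
        (T.filter (fun t => x ∈ t ∧ u ∈ t)).filter (fun t => (t ∩ W).card = 2) := by
      ext t
      simp only [Db, mem_filter, pairSub]
      constructor
      · rintro ⟨⟨h1, h2, -⟩, h3⟩
        exact ⟨⟨h1, h3⟩, h2⟩
      · rintro ⟨⟨h1, h3⟩, h2⟩
        exact ⟨⟨h1, h2, u, h3.2, hu, hN⟩, h3⟩
    have ha : (Da T W h).filter (fun t => ({x, u} : Finset V) ⊆ t) =
        (T.filter (fun t => x ∈ t ∧ u ∈ t)).filter (fun t => ¬ (t ∩ W).card = 2) := by
      ext t
      simp only [Da, mem_filter, pairSub]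
      constructor
      · rintro ⟨⟨h1, h2, -⟩, h3⟩
        exact ⟨⟨h1, h3⟩, by omega⟩
      · rintro ⟨⟨h1, h3⟩, h2⟩
        have := cardMixed (hT.card t h1) h3.1 h3.2 hx hu
        exact ⟨⟨h1, by omega, u, h3.2, hu, hN⟩, h3⟩
    have hsum : ((Db T W h).filter (fun t => ({x, u} : Finset V) ⊆ t)).card +
        ((Da T W h).filter (fun t => ({x, u} : Finset V) ⊆ t)).card = 2 := by
      rw [hb, ha, ← h2]
      exact Finset.card_filter_add_card_filter_not _
    constructor
    · constructor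
      · rintro ⟨k, hk⟩
        exact ⟨0, by omega⟩
      · rintro ⟨k, hk⟩
        exact ⟨0, by omega⟩
    · rintro ⟨k, hk⟩
      have hne : ((Da T W h).filter (fun t => ({x, u} : Finset V) ⊆ t)).Nonempty := by
        rw [← Finset.card_pos]
        omega
      obtain ⟨t, ht⟩ := hne
      simp only [Da, mem_filter, pairSub] at ht
      exact ⟨hN, t, ht.1.1, ht.2.1, ht.2.2, ht.1.2.1⟩
  · have hb : (Db T W h).filter (fun t => ({x, u} : Finset V) ⊆ t) = ∅ := by
      ext t
      simp only [Db, mem_filter, pairSub, Finset.notMem_empty, iff_false]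
      rintro ⟨⟨h1, h2, u', hu', hu'W, hu'N⟩, h3⟩
      exact hN (h4 h t h1 ⟨x, mem_inter.mpr ⟨h3.1, hx⟩⟩ u' hu' u h3.2 hu'W hu hu'N)
    have ha : (Da T W h).filter (fun t => ({x, u} : Finset V) ⊆ t) = ∅ := by
      ext t
      simp only [Da, mem_filter, pairSub, Finset.notMem_empty, iff_false]
      rintro ⟨⟨h1, h2, u', hu', hu'W, hu'N⟩, h3⟩
      exact hN (h4 h t h1 ⟨x, mem_inter.mpr ⟨h3.1, hx⟩⟩ u' hu' u h3.2 hu'W hu hu'N)
    rw [hb, ha]
    simp

/-- the edges of `mK` are mixed -/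
theorem mKmixed {T : Finset (Finset V)} {W : Finset V} {h : V} (hT : Surf T) {e : Finset V}
    (he : e ∈ mK T W h) : ∃ x u, e = {x, u} ∧ x ∈ W ∧ u ∉ W ∧ (sk T).Adj x u ∧
      Odd ((Db T W h).filter (fun t => ({x, u} : Finset V) ⊆ t)).card := by
  simp only [mK, bd, mem_filter] at he
  obtain ⟨⟨hed, hodd⟩, hsub⟩ := he
  obtain ⟨u, hue, huW⟩ := Finset.not_subset.mp hsub
  obtain ⟨x, rfl, hux⟩ := edPair hed hue
  have hne : ((Db T W h).filter (fun t => ({u, x} : Finset V) ⊆ t)).Nonempty := by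
    rw [← Finset.card_pos]
    exact hodd.pos
  obtain ⟨t, ht⟩ := hne
  simp only [Db, mem_filter, pairSub] at ht
  obtain ⟨⟨htT, ht2, -⟩, hut, hxt⟩ := ht
  have hxW : x ∈ W := by
    by_contra hxW
    have h3 := hT.card t htT
    have h5 : ({u, x} : Finset V).card = 2 := Finset.card_pair hux.1
    have h6 : ({u, x} : Finset V) ⊆ t \ W := by
      rw [pairSub, mem_sdiff, mem_sdiff]
      exact ⟨⟨hut, huW⟩, ⟨hxt, hxW⟩⟩
    have h7 := Finset.card_le_card h6
    have h8 := Finset.card_sdiff_add_card_inter t W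
    omega
  refine ⟨x, u, Finset.pair_comm _ _, hxW, huW, hux.symm, ?_⟩
  rw [Finset.pair_comm]
  exact hodd

/-- a triangle with exactly one vertex in `W` -/
theorem third {T : Finset (Finset V)} {W : Finset V} (hT : Surf T) {t : Finset V} (ht : t ∈ T)
    {x u : V} (hx : x ∈ t) (hu : u ∈ t) (hxW : x ∈ W) (huW : u ∉ W) (h1 : (t ∩ W).card = 1) :
    ∃ u', u' ∉ W ∧ (lk T x).Adj u u' := by
  have hne : x ≠ u := fun h => huW (h ▸ hxW)
  have h3 := hT.card t ht
  have h5 : ((t.erase x).erase u).card = 1 := by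
    rw [Finset.card_erase_of_mem (mem_erase.mpr ⟨hne.symm, hu⟩), Finset.card_erase_of_mem hx]
    omega
  obtain ⟨u', hu'⟩ := Finset.card_pos.mp (by omega : 0 < ((t.erase x).erase u).card)
  rw [mem_erase, mem_erase] at hu'
  refine ⟨u', ?_, hu'.1.symm, hne.symm, hu'.2.1, t, ht, hx, hu, hu'.2.2⟩
  intro hu'W
  have h6 : ({x, u'} : Finset V) ⊆ t ∩ W := by
    rw [pairSub, mem_inter, mem_inter]
    exact ⟨⟨hx, hxW⟩, ⟨hu'.2.2, hu'W⟩⟩
  have h7 := Finset.card_le_card h6
  rw [Finset.card_pair hu'.2.1.symm] at h7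
  omega

/-- PACKET MK of project KI -/
theorem pMK (UH : StmtUH) (EV : StmtEV) : StmtMK := by
  intro V _ T W h hT hS hh
  obtain ⟨u1, u2, u3, u4⟩ := UH V T W hT hS
  obtain ⟨e1, e2, e3, -, -, -⟩ := EV V T hT
  have hbdA : ∀ e ∈ symmDiff (bd T (Da T W h)) (mK T W h), ∀ v ∈ e, v ∉ W := by
    intro e he v hve hvW
    rw [Finset.mem_symmDiff] at he
    rcases he with ⟨he, hn⟩ | ⟨he, hn⟩
    · have he' := he
      simp only [bd, mem_filter] at he'
      obtain ⟨hed, hodd⟩ := he'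
      obtain ⟨u, rfl, hvu⟩ := edPair hed hve
      have hne : ((Da T W h).filter (fun t => ({v, u} : Finset V) ⊆ t)).Nonempty := by
        rw [← Finset.card_pos]
        exact hodd.pos
      obtain ⟨t, ht⟩ := hne
      simp only [Da, mem_filter, pairSub] at ht
      obtain ⟨⟨htT, ht1, -⟩, hvt, hut⟩ := ht
      have huW : u ∉ W := by
        intro huW
        have h6 : ({v, u} : Finset V) ⊆ t ∩ W := by
          rw [pairSub, mem_inter, mem_inter]
          exact ⟨⟨hvt, hvW⟩, ⟨hut, huW⟩⟩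
        have h7 := Finset.card_le_card h6
        rw [Finset.card_pair hvu.1] at h7
        omega
      apply hn
      simp only [mK, bd, mem_filter]
      exact ⟨⟨hed, (mixed hT u4 hvW huW hvu).1.mpr hodd⟩, fun hs => huW (pairSub.mp hs).2⟩
    · obtain ⟨x, u, rfl, hxW, huW, hxu, hodd⟩ := mKmixed hT he
      apply hn
      simp only [bd, mem_filter]
      exact ⟨pairEd hxu, (mixed hT u4 hxW huW hxu).1.mp hodd⟩
  have hbdB : bd T (Db T W h) = symmDiff (dW T W h) (mK T W h) := by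
    ext e
    rw [Finset.mem_symmDiff]
    simp only [dW, mK, mem_filter]
    tauto
  have hdW : dW T W h = symmDiff (bd T (Db T W h)) (mK T W h) := by
    rw [hbdB, symmDiff_symmDiff_cancel_right]
  have hmK : Even2 (mK T W h) := by
    intro v
    by_cases hv : v ∈ W
    · have : (mK T W h).filter (fun e => v ∈ e) = (bd T (Da T W h)).filter (fun e => v ∈ e) := by
        ext e
        simp only [mem_filter]
        constructor
        · rintro ⟨h1, h2⟩
          refine ⟨?_, h2⟩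
          by_contra h3
          exact hbdA e (Finset.mem_symmDiff.mpr (Or.inr ⟨h1, h3⟩)) v h2 hv
        · rintro ⟨h1, h2⟩
          refine ⟨?_, h2⟩
          by_contra h3
          exact hbdA e (Finset.mem_symmDiff.mpr (Or.inl ⟨h1, h3⟩)) v h2 hv
      rw [this]
      exact e3 (Da T W h) (filter_subset _ _) v
    · have : (mK T W h).filter (fun e => v ∈ e) = (bd T (Db T W h)).filter (fun e => v ∈ e) := by
        ext e
        simp only [mK, mem_filter]
        constructor
        · rintro ⟨⟨h1, -⟩, h2⟩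
          exact ⟨h1, h2⟩
        · rintro ⟨h1, h2⟩
          exact ⟨⟨h1, fun h3 => hv (h3 h2)⟩, h2⟩
      rw [this]
      exact e3 (Db T W h) (filter_subset _ _) v
  refine ⟨?_, ⟨hbdB, hbdA⟩, hmK, ?_, ?_, ?_⟩
  · intro e he
    obtain ⟨x, u, rfl, hxW, huW, hxu, hodd⟩ := mKmixed hT he
    obtain ⟨huN, t, htT, hxt, hut, ht1⟩ :=
      (mixed hT u4 hxW huW hxu).2 ((mixed hT u4 hxW huW hxu).1.mp hodd)
    obtain ⟨u', hu'W, hadj⟩ := third hT htT hxt hut hxW huW ht1
    have h7 := u1 x hxW u u' huW hu'W hadj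
    exact ⟨x, u, rfl, hxW, huW, h7, hxu, u3 h u x huN h7 hxu.symm⟩
  · rw [hdW]
    exact e2 _ _ (e3 (Db T W h) (filter_subset _ _)) hmK
  · intro e he
    simp only [dW, bd, mem_filter] at he
    simp only [edW, mem_filter]
    exact ⟨he.1.1, he.2⟩
  · intro e he
    simp only [mK, bd, mem_filter] at he
    exact he.1.1

end Pool.Agent.Helper98.KI
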